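import Pool.Agent.Helper51.LT.St
import Pool.Agent.Helper71.TU.X5aux

/-!
# Project LT (MP_d6acc2_an): module SQR (square root transform)
-/

set_option autoImplicit false

namespace Pool.Agent.Helper43.LT

open Complex MeasureTheory Set Metric Filter Topology
open scoped Real ENNReal
open Pool.Agent.Helper51.LT

/-- square root of a zero free univalent function -/
lemma exists_sqrt {Φ : ℂ → ℂ} {w₀ : ℂ} (hd : DifferentiableOn ℂ Φ (ball 0 1))
    (hw : w₀ ∉ Φ '' ball 0 1) :
    ∃ H : ℂ → ℂ, DifferentiableOn ℂ H (ball 0 1) ∧ ∀ z ∈ ball (0 : ℂ) 1, H z ^ 2 = Φ z - w₀ := by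
  have hne : ∀ z ∈ ball (0 : ℂ) 1, Φ z - w₀ ≠ 0 := fun z hz h => hw ⟨z, hz, sub_eq_zero.1 h⟩
  have h0m : (0 : ℂ) ∈ ball (0 : ℂ) 1 := mem_ball_self one_pos
  have h0 := hne 0 h0m
  obtain ⟨L, hL, _, hLe⟩ := Pool.Agent.Helper60.Rel.exists_log_disc
    (ψ := fun z => (Φ z - w₀) / (Φ 0 - w₀))
    ((hd.sub_const w₀).div_const _) (fun z hz => div_ne_zero (hne z hz) h0) (div_self h0)
  refine ⟨fun z => exp (Complex.log (Φ 0 - w₀) / 2) * exp (L z / 2), ?_, ?_⟩
  · apply DifferentiableOn.const_mul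
    exact (hL.div_const 2).cexp
  · intro z hz
    have e1 : exp (Complex.log (Φ 0 - w₀) / 2) ^ 2 = Φ 0 - w₀ := by
      rw [sq, ← exp_add]
      have : Complex.log (Φ 0 - w₀) / 2 + Complex.log (Φ 0 - w₀) / 2
          = Complex.log (Φ 0 - w₀) := by ring
      rw [this, exp_log h0]
    have e2 : exp (L z / 2) ^ 2 = (Φ z - w₀) / (Φ 0 - w₀) := by
      rw [sq, ← exp_add]
      have : L z / 2 + L z / 2 = L z := by ring
      rw [this, hLe z hz]
    show (exp (Complex.log (Φ 0 - w₀) / 2) * exp (L z / 2)) ^ 2 = Φ z - w₀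
    rw [mul_pow, e1, e2]
    field_simp

theorem hSqr : StSqr := by
  intro Φ w₀ v κ hΦ hw hv hv100 hκ hκv
  obtain ⟨hd, hi⟩ := hΦ
  obtain ⟨H, hH, hH2⟩ := exists_sqrt hd hw
  have hne : ∀ z ∈ ball (0 : ℂ) 1, Φ z - w₀ ≠ 0 := fun z hz h => hw ⟨z, hz, sub_eq_zero.1 h⟩
  have hHne : ∀ z ∈ ball (0 : ℂ) 1, H z ≠ 0 := by
    intro z hz h
    apply hne z hz
    rw [← hH2 z hz, h]
    simp
  have hHd : ∀ z ∈ ball (0 : ℂ) 1, HasDerivAt H (deriv H z) z := fun z hz =>
    (hH.differentiableAt (isOpen_ball.mem_nhds hz)).hasDerivAt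
  have hΦd : ∀ z ∈ ball (0 : ℂ) 1, HasDerivAt Φ (deriv Φ z) z := fun z hz =>
    (hd.differentiableAt (isOpen_ball.mem_nhds hz)).hasDerivAt
  have hder : ∀ z ∈ ball (0 : ℂ) 1, deriv Φ z = 2 * H z * deriv H z := by
    intro z hz
    have e1 : HasDerivAt (fun x => H x ^ 2) (2 * H z * deriv H z) z := by
      have h1 : HasDerivAt (fun x => H x ^ 2) (((2 : ℕ) : ℂ) * H z ^ (2 - 1) * deriv H z) z :=
        (hHd z hz).pow 2
      refine h1.congr_deriv ?_
      norm_num
    have e2 : HasDerivAt (fun x => H x ^ 2) (deriv Φ z) z := by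
      have := (hΦd z hz).sub_const w₀
      refine this.congr_of_eventuallyEq ?_
      filter_upwards [isOpen_ball.mem_nhds hz] with x hx
      exact hH2 x hx
    exact e2.unique e1
  have hHinj : InjOn H (ball 0 1) := by
    intro a ha b hb hab
    apply hi ha hb
    have := hH2 a ha
    rw [hab, hH2 b hb] at this
    linear_combination -this
  have hsum : ∀ a ∈ ball (0 : ℂ) 1, ∀ b ∈ ball (0 : ℂ) 1, H a + H b ≠ 0 := by
    intro a ha b hb hab
    have h1 : H a = - H b := by linear_combination hab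
    have h2 : a = b := by
      apply hi ha hb
      have h3 := hH2 a ha
      have h4 := hH2 b hb
      rw [h1] at h3
      linear_combination h4 - h3
    subst h2
    apply hHne a ha
    have : 2 * H a = 0 := by linear_combination hab
    simpa using this
  have hnv : ∀ z ∈ ball (0 : ℂ) 1, ‖H z‖ ^ 2 = ‖Φ z - w₀‖ := by
    intro z hz
    rw [← hH2 z hz, norm_pow]
  have hHv : ‖H v‖ ≤ 10 := by
    have := hnv v hv
    nlinarith [norm_nonneg (H v)]
  have hv1 : ‖v‖ < 1 := mem_ball_zero_iff.1 hv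
  set d : ℝ := 1 - ‖v‖ with hdd
  have hd0 : 0 < d := by rw [hdd]; linarith
  have hdH : κ / 20 ≤ ‖deriv H v‖ * d := by
    have e := hder v hv
    have e2 : ‖deriv Φ v‖ = 2 * ‖H v‖ * ‖deriv H v‖ := by
      rw [e, norm_mul, norm_mul]
      simp
    rw [e2] at hκv
    have : 2 * ‖H v‖ * ‖deriv H v‖ * d ≤ 2 * 10 * ‖deriv H v‖ * d := by
      gcongr
    linarith
  have hH'v : deriv H v ≠ 0 := by
    intro h
    rw [h, norm_zero, zero_mul] at hdH
    linarith
  have hnH : 0 < ‖deriv H v‖ * d := by linarith [div_pos hκ (by norm_num : (0 : ℝ) < 20)]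
  have hin : ∀ x ∈ ball (0 : ℂ) 1, v + d * x ∈ ball (0 : ℂ) 1 := by
    intro x hx
    rw [mem_ball_zero_iff] at hx ⊢
    calc ‖v + d * x‖ ≤ ‖v‖ + ‖(d : ℂ) * x‖ := norm_add_le _ _
      _ = ‖v‖ + d * ‖x‖ := by rw [norm_mul, Complex.norm_real, Real.norm_of_nonneg hd0.le]
      _ < ‖v‖ + d * 1 := by gcongr
      _ = 1 := by rw [hdd]; ring
  have hdc : (d : ℂ) ≠ 0 := by exact_mod_cast hd0.ne'
  have hc0 : (d : ℂ) * deriv H v ≠ 0 := mul_ne_zero hdc hH'v
  have hlow : ∀ z ∈ ball (0 : ℂ) 1, κ / 80 ≤ ‖H z + H v‖ := by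
    intro z hz
    by_contra hlt
    push Not at hlt
    have hφd : ∀ x ∈ ball (0 : ℂ) 1, HasDerivAt
        (fun x => (H (v + d * x) - H v) / (d * deriv H v))
        ((deriv H (v + d * x) * d) / (d * deriv H v)) x := by
      intro x hx
      have e1 : HasDerivAt (fun x : ℂ => v + d * x) (d : ℂ) x := by
        have := ((hasDerivAt_id x).const_mul (d : ℂ)).const_add v
        simpa using this
      have e2 := (hHd _ (hin x hx)).comp x e1
      exact (e2.sub_const (H v)).div_const _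
    have hK := Pool.Agent.Helper46.Rel.koebe_of Pool.Agent.Helper60.Rel.bieb
      (φ := fun x => (H (v + d * x) - H v) / (d * deriv H v))
      (fun x hx => (hφd x hx).differentiableAt.differentiableWithinAt)
      (by
        intro a ha b hb hab
        have h1 : H (v + d * a) = H (v + d * b) := by
          have h2 := (div_left_inj' hc0).1 hab
          linear_combination h2
        have h3 := hHinj (hin a ha) (hin b hb) h1
        exact mul_left_cancel₀ hdc (add_left_cancel h3))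
      (by simp)
      (by
        rw [(hφd 0 (mem_ball_self one_pos)).deriv, mul_zero, add_zero]
        field_simp)
      (w := (-H z - H v) / (d * deriv H v))
      (by
        rintro ⟨x, hx, hxe⟩
        have h2 := (div_left_inj' hc0).1 hxe
        apply hsum (v + d * x) (hin x hx) z hz
        linear_combination h2)
    have e3 : ‖(-H z - H v) / (d * deriv H v)‖ = ‖H z + H v‖ / (‖deriv H v‖ * d) := by
      rw [norm_div, norm_mul, Complex.norm_real, Real.norm_of_nonneg hd0.le, mul_comm d]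
      congr 1
      rw [← norm_neg]
      congr 1
      ring
    rw [e3, le_div_iff₀ hnH] at hK
    linarith
  have hκc : ((κ / 80 : ℝ) : ℂ) ≠ 0 := by
    have : κ / 80 ≠ 0 := by positivity
    exact_mod_cast this
  have hgd : ∀ z ∈ ball (0 : ℂ) 1, HasDerivAt (fun z => ((κ / 80 : ℝ) : ℂ) / (H z + H v))
      (-(((κ / 80 : ℝ) : ℂ) * deriv H z) / (H z + H v) ^ 2) z := by
    intro z hz
    have e1 : HasDerivAt (fun x => H x + H v) (deriv H z) z := (hHd z hz).add_const _
    have e2 := (hasDerivAt_const z ((κ / 80 : ℝ) : ℂ)).div e1 (hsum z hz v hv)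
    refine e2.congr_deriv ?_
    ring
  refine ⟨fun z => ((κ / 80 : ℝ) : ℂ) / (H z + H v), ⟨⟨?_, ?_⟩, ?_⟩, ?_⟩
  · exact fun z hz => (hgd z hz).differentiableAt.differentiableWithinAt
  · intro a ha b hb hab
    apply hHinj ha hb
    have h1 := hsum a ha v hv
    have h2 := hsum b hb v hv
    have h3 : ((κ / 80 : ℝ) : ℂ) / (H a + H v) = ((κ / 80 : ℝ) : ℂ) / (H b + H v) := hab
    rw [div_eq_div_iff h1 h2] at h3
    have h4 := mul_left_cancel₀ hκc h3
    linear_combination -h4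
  · intro z hz
    show ‖((κ / 80 : ℝ) : ℂ) / (H z + H v)‖ ≤ 1
    have h1 := hlow z hz
    have h2 : 0 < κ / 80 := by positivity
    rw [norm_div, Complex.norm_real, Real.norm_of_nonneg h2.le, div_le_one (by linarith)]
    exact h1
  · intro z hz hz21
    have h1 := hlow z hz
    have h2 : 0 < κ / 80 := by positivity
    have hHz : ‖H z‖ ≤ 5 := by
      have := hnv z hz
      nlinarith [norm_nonneg (H z)]
    have hs0 : 0 < ‖H z + H v‖ := by linarith
    have hs : ‖H z + H v‖ ≤ 15 := (norm_add_le _ _).trans (by linarith)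
    rw [(hgd z hz).deriv, norm_div, norm_neg, norm_mul, Complex.norm_real,
      Real.norm_of_nonneg h2.le, norm_pow]
    have e2 : ‖deriv Φ z‖ = 2 * ‖H z‖ * ‖deriv H z‖ := by
      rw [hder z hz, norm_mul, norm_mul]
      simp
    have e3 : ‖deriv Φ z‖ ≤ 10 * ‖deriv H z‖ := by
      rw [e2]
      have : 2 * ‖H z‖ * ‖deriv H z‖ ≤ 2 * 5 * ‖deriv H z‖ := by gcongr
      linarith
    have e4 : κ / 80 * ‖deriv H z‖ / 225 ≤ κ / 80 * ‖deriv H z‖ / ‖H z + H v‖ ^ 2 := by
      apply div_le_div_of_nonneg_left (by positivity) (by positivity)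
      nlinarith
    have e5 : κ * ‖deriv Φ z‖ ≤ κ * (10 * ‖deriv H z‖) := by gcongr
    have e6 : 0 ≤ κ * ‖deriv H z‖ := by positivity
    calc κ * ‖deriv Φ z‖ ≤ κ * (10 * ‖deriv H z‖) := e5
      _ = 180000 * (κ / 80 * ‖deriv H z‖ / 225) := by ring
      _ ≤ 200000 * (κ / 80 * ‖deriv H z‖ / 225) := by
          have : 0 ≤ κ / 80 * ‖deriv H z‖ / 225 := by positivity
          linarith
      _ ≤ 200000 * (κ / 80 * ‖deriv H z‖ / ‖H z + H v‖ ^ 2) := by gcongr

end Pool.Agent.Helper43.LT
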